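import Pool.Agent.Y463.SK.Defs

/-!
# Iterated commutators of twists

Braid words are lists of letters `σ_i^{±1}` (`Pool.Agent.W639.RB.Letter`), `invW` is the word of the
inverse braid (starting library `Pool.Agent.Y463.SK.Defs`).
-/

set_option autoImplicit false

namespace Pool.Agent.Helper52_CU

open Finset LaurentPolynomial Pool.Agent.H891R2.Jones Pool.Agent.W639.RB Pool.Agent.Y463.SK

/-- `TW m s a b u`: the braid word `u` on `m` strands is built from the words `σ_i^{±6s}` (`3s` full
twists of two neighbouring strands, weight `(1, 0)`) and `(σ_i σ_{i+1})^{6s}` (`2s` full twists of three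
neighbouring strands, weight `(0, 1)`) by inverses, products and conjugates (which keep the weight) and
commutators (the weights are added), and has the weight `(a, b)`. -/
inductive TW (m s : ℕ) : ℕ → ℕ → List (Letter m) → Prop
  | two (p : Bool) (i : Fin (m - 1)) : TW m s 1 0 (List.replicate (6 * s) (p, i))
  | three (i j : Fin (m - 1)) (h : (j : ℕ) = i + 1) :
      TW m s 0 1 (List.replicate (6 * s) [(true, i), (true, j)]).flatten
  | inv {a b : ℕ} {u : List (Letter m)} : TW m s a b u → TW m s a b (invW u)
  | mul {a b : ℕ} {u v : List (Letter m)} : TW m s a b u → TW m s a b v → TW m s a b (u ++ v)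
  | conj {a b : ℕ} {u : List (Letter m)} (w : List (Letter m)) :
      TW m s a b u → TW m s a b (w ++ u ++ invW w)
  | comm {a b a' b' : ℕ} {u v : List (Letter m)} :
      TW m s a b u → TW m s a' b' v → TW m s (a + a') (b + b') (u ++ v ++ invW u ++ invW v)

end Pool.Agent.Helper52_CU
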