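import Pool.Agent.Helper52_CU.Loc

/-!
# The words, and their leading terms at `t = -1`
-/

set_option autoImplicit false

namespace Pool.Agent.Helper52_CU

open Finset LaurentPolynomial Pool.Agent.H891R2.Jones Pool.Agent.W639.RB
  Pool.Agent.Y463.SK Pool.Agent.Y463.MP

/-- `σ_1^{6s}` -/
def wY (s : ℕ) : List (Letter 4) := List.replicate (6 * s) (true, 1)

/-- iterated commutators of `σ_1^{6s}` with `σ_2^{-6s}` -/
def wG (s : ℕ) : ℕ → List (Letter 4)
  | 0 => List.replicate (6 * s) (false, 2)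
  | (j + 1) => wY s ++ wG s j ++ invW (wY s) ++ invW (wG s j)

/-- `(σ_0 σ_1)^{6s}` -/
def wX (s : ℕ) : List (Letter 4) := thW s 0 1

/-- iterated commutators with `(σ_0 σ_1)^{6s}` -/
def wU (s j : ℕ) : ℕ → List (Letter 4)
  | 0 => wG s j
  | (k + 1) => wX s ++ wU s j k ++ invW (wX s) ++ invW (wU s j k)

theorem tw_wG (s j : ℕ) : TW 4 s (j + 1) 0 (wG s j) := by
  induction j with
  | zero => exact TW.two false 2
  | succ j ih =>
    have h := (TW.two (m := 4) (s := s) true 1).comm ih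
    have e : 1 + (j + 1) = j + 1 + 1 := by ring
    rw [e] at h
    exact h

theorem tw_wU (s j k : ℕ) : TW 4 s (j + 1) k (wU s j k) := by
  induction k with
  | zero => exact tw_wG s j
  | succ k ih =>
    have h := (TW.three (m := 4) (s := s) 0 1 rfl).comm ih
    have e1 : 0 + (j + 1) = j + 1 := by ring
    have e2 : 1 + k = k + 1 := by ring
    rw [e1, e2] at h
    exact h

/-! ### the group of `σ_1^{6s}` and `σ_2^{6s}` -/

/-- `i` -/
noncomputable def io : ℂ := (z8 : ℂ) ^ 2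

theorem io_sq : io * io = -1 := by
  unfold io; rw [← pow_add]; exact z8_four

theorem sq_pow {x : T8} (hx : x * x = 0) (τ : ℂ) (n : ℕ) :
    ((1 : T8) + τ • x) ^ n = 1 + ((n : ℂ) * τ) • x := by
  induction n with
  | zero => simp
  | succ n ih =>
    rw [pow_succ, ih]
    simp only [mul_add, add_mul, smul_mul_assoc, mul_smul_comm, one_mul, mul_one, hx, smul_zero]
    push_cast
    module

theorem rd_true (i : Fin 3) (x : T8) (h : rd (EZ 4 i) = x) (hx : x * x = 0) (n : ℕ) :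
    rd (zz (List.replicate n ((true, i) : Letter 4))) =
      ((z8 : ℂ) ^ n) • ((1 : T8) + (-(io * n)) • x) := by
  have e1 : rd (sZ 4 (true, (i : ℕ))) = (z8 : ℂ) • ((1 : T8) + (-io) • x) := by
    rw [sZ_true, map_add, rd_smul, rd_smul, map_one, h, e8_T1, e8_Tm1, smul_add, smul_smul]
    congr 2
    have := z8_inv_sq
    have h2 := z8_mul
    unfold io
    linear_combination (z8 : ℂ) * this - (z8 : ℂ)⁻¹ * h2
  rw [zz_replicate, map_pow, e1, smul_pow, sq_pow hx]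
  congr 3
  ring

theorem rd_false (i : Fin 3) (x : T8) (h : rd (EZ 4 i) = x) (hx : x * x = 0) (n : ℕ) :
    rd (zz (List.replicate n ((false, i) : Letter 4))) =
      (((z8 : ℂ)⁻¹) ^ n) • ((1 : T8) + (io * n) • x) := by
  have e1 : rd (sZ 4 (false, (i : ℕ))) = ((z8 : ℂ)⁻¹) • ((1 : T8) + io • x) := by
    rw [sZ_false, map_add, rd_smul, rd_smul, map_one, h, e8_T1, e8_Tm1, smul_add, smul_smul]
    congr 2
    have h2 := z8_mul
    unfold io
    linear_combination (-(z8 : ℂ)) * h2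
  rw [zz_replicate, map_pow, e1, smul_pow, sq_pow hx]
  congr 3
  ring

/-- the elements given by matrices of determinant one -/
noncomputable abbrev GM (p q s u : ℂ) : T8 := Gm g1 g2 1 p (-(io * q)) (io * s) u

theorem GM_mul (p q s u p' q' s' u' : ℂ) :
    GM p q s u * GM p' q' s' u' =
      GM (p * p' + q * s') (p * q' + q * u') (s * p' + u * s') (s * q' + u * u') := by
  unfold GM
  rw [tlz.Gm_mul]
  have h := io_sq
  congr 1
  · ring
  · linear_combination (-q * s') * h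
  · ring
  · ring
  · linear_combination (-s * q') * h

theorem GM_one : GM 1 0 0 1 = 1 := by
  unfold GM
  rw [mul_zero, neg_zero]
  exact Gm_one

theorem GM_inv (p q s u : ℂ) (h : p * u - q * s = 1) : GM u (-q) (-s) p * GM p q s u = 1 := by
  rw [GM_mul, ← GM_one]
  congr 1
  · linear_combination h
  · ring
  · ring
  · linear_combination h

theorem rd_zz_inv (w : List (Letter 4)) : rd (zz w) * rd (zz (invW w)) = 1 := by
  rw [← map_mul, zz_inv, map_one]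

theorem rd_inv_of (w : List (Letter 4)) {κ p q s u : ℂ} (hκ : κ ≠ 0) (h : p * u - q * s = 1)
    (hw : rd (zz w) = κ • GM p q s u) : rd (zz (invW w)) = κ⁻¹ • GM u (-q) (-s) p := by
  have h1 : (κ⁻¹ • GM u (-q) (-s) p) * rd (zz w) = 1 := by
    rw [hw, smul_mul_assoc, mul_smul_comm, GM_inv p q s u h, smul_smul, inv_mul_cancel₀ hκ,
      one_smul]
  exact (left_inv_eq_right_inv h1 (rd_zz_inv w)).symm

/-- the words which are treated -/
def Good (v : List (Letter 4)) : Prop := ∃ (κ : ℂ) (p q s u : ℤ), κ ≠ 0 ∧ 1 ≤ p ∧ 1 ≤ s ∧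
  p * u - q * s = 1 ∧ rd (zz v) = κ • GM p q s u

theorem good_zero (s : ℕ) (hs : 1 ≤ s) : Good (wG s 0) := by
  refine ⟨((z8 : ℂ)⁻¹) ^ (6 * s), 1, 0, 6 * s, 1, pow_ne_zero _ (inv_ne_zero z8_ne), le_refl 1,
    by omega, by ring, ?_⟩
  have h := rd_false 2 g2 rfl tlz.cc (6 * s)
  show rd (zz (List.replicate (6 * s) ((false, 2) : Letter 4))) = _
  rw [h]
  congr 1
  unfold GM Gm
  push_cast
  simp

theorem good_succ (s : ℕ) (hs : 1 ≤ s) (v : List (Letter 4)) (hv : Good v) :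
    Good (wY s ++ v ++ invW (wY s) ++ invW v) := by
  obtain ⟨κ, p, q, r, u, hκ, hp, hr, hdet, hg⟩ := hv
  have hdet' : (p : ℂ) * u - q * r = 1 := by exact_mod_cast hdet
  have hY : rd (zz (wY s)) = ((z8 : ℂ) ^ (6 * s)) • GM 1 ((6 * s : ℕ) : ℂ) 0 1 := by
    have h := rd_true 1 g1 rfl tlz.bb (6 * s)
    unfold wY
    rw [h]
    congr 1
    unfold GM Gm
    simp
  have hz : (z8 : ℂ) ^ (6 * s) ≠ 0 := pow_ne_zero _ z8_ne
  have hY' := rd_inv_of (wY s) hz (by ring) hY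
  have hg' := rd_inv_of v hκ hdet' hg
  set n : ℤ := 6 * s with hn
  have hnc : ((6 * s : ℕ) : ℂ) = (n : ℂ) := by rw [hn]; push_cast; ring
  rw [hnc] at hY hY'
  have hn1 : 1 ≤ n := by omega
  refine ⟨1, 1 + n * p * r + n ^ 2 * r ^ 2, n - n * p ^ 2 - n ^ 2 * p * r, n * r ^ 2, 1 - n * p * r,
    one_ne_zero, ?_, ?_, ?_, ?_⟩
  · have : 0 ≤ n * p * r := by positivity
    have : 0 ≤ n ^ 2 * r ^ 2 := by positivity
    linarith
  · have : 1 * 1 ≤ n * r ^ 2 := mul_le_mul hn1 (by nlinarith) (by norm_num) (by linarith)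
    linarith
  · ring
  · rw [zz_append, zz_append, zz_append, map_mul, map_mul, map_mul, hY, hY', hg, hg']
    simp only [smul_mul_assoc, mul_smul_comm, GM_mul, smul_smul]
    congr 1
    · field_simp
    · push_cast
      congr 1
      · linear_combination hdet'
      · linear_combination (n : ℂ) * hdet'
      · ring
      · linear_combination hdet'

theorem good_wG (s : ℕ) (hs : 1 ≤ s) (j : ℕ) : Good (wG s j) := by
  induction j with
  | zero => exact good_zero s hs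
  | succ j ih => exact good_succ s hs _ ih

/-! ### commutators with the twist of three strands -/

/-- the idempotent -/
noncomputable abbrev P8 : T8 := PZ g0 g1

/-- the leading terms -/
noncomputable def Wf (V : T8) : ℕ → T8
  | 0 => V - P8
  | (k + 1) => Wf V k * P8 - P8 * Wf V k

theorem Wf_odd (V : T8) (i : ℕ) : Wf V (2 * i + 1) = V * P8 - P8 * V := by
  induction i with
  | zero =>
    show (V - P8) * P8 - P8 * (V - P8) = _
    rw [mul_sub, sub_mul]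
    abel
  | succ i ih =>
    have h := ad_cube' (x := V) (tlz.PP)
    show (Wf V (2 * i + 1) * P8 - P8 * Wf V (2 * i + 1)) * P8 -
      P8 * (Wf V (2 * i + 1) * P8 - P8 * Wf V (2 * i + 1)) = _
    rw [ih]
    exact h

theorem rd_FF : rd (FF (-(T 1) ^ 2 - (T (-1)) ^ 2 : ℤ[T;T⁻¹]) (EZ 4 0) (EZ 4 (0 + 1))) =
    (-1 : ℂ) • P8 := by
  have h1 : e8 ((-(T 1) ^ 2 - (T (-1)) ^ 2) ^ 2 - 1) = -1 := by
    rw [map_sub, map_pow, e8_dl', map_one]
    norm_num
  unfold FF P8 PZ g0 g1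
  rw [map_add rd, map_sub rd, rd_smul, rd_smul, h1, e8_dl', map_add rd (EZ 4 0 * EZ 4 (0 + 1)),
    map_mul rd, map_mul rd, map_one rd, zero_smul]
  simp only [zero_add]
  module

theorem rd_X (s : ℕ) : ∃ κ : ℂ, κ ≠ 0 ∧ rd (zz (wX s)) = κ • (1 : T8) ∧
    e8 (T (-1) ^ (6 * (2 * s))) = κ ∧ rd (zz (invW (wX s))) = κ⁻¹ • (1 : T8) := by
  refine ⟨((z8 : ℂ)⁻¹) ^ (6 * (2 * s)), pow_ne_zero _ (inv_ne_zero z8_ne), ?_, ?_, ?_⟩
  · unfold wX
    rw [three_eq 0 1 rfl, rd_smul, map_pow, e8_Tm1, map_add, map_one, rd_smul, e8_xx, zero_smul,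
      add_zero]
  · rw [map_pow, e8_Tm1]
  · have h1 : rd (zz (wX s)) = ((z8 : ℂ)⁻¹) ^ (6 * (2 * s)) • (1 : T8) := by
      unfold wX
      rw [three_eq 0 1 rfl, rd_smul, map_pow, e8_Tm1, map_add, map_one, rd_smul, e8_xx, zero_smul,
        add_zero]
    have h2 := rd_zz_inv (wX s)
    rw [h1, smul_mul_assoc, one_mul] at h2
    rw [← h2, smul_smul, inv_mul_cancel₀ (pow_ne_zero _ (inv_ne_zero z8_ne)), one_smul]

theorem lead_step (s : ℕ) (x : ℤ[T;T⁻¹]) (w : List (Letter 4)) (Y : TLZ 4)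
    (hY : FF (-(T 1) ^ 2 - (T (-1)) ^ 2 : ℤ[T;T⁻¹]) (EZ 4 0) (EZ 4 (0 + 1)) * zz w -
      zz w * FF (-(T 1) ^ 2 - (T (-1)) ^ 2 : ℤ[T;T⁻¹]) (EZ 4 0) (EZ 4 (0 + 1)) = x • Y) :
    ∃ Z : TLZ 4, zz (wX s ++ w ++ invW (wX s) ++ invW w) = 1 + (xx s * x) • Z ∧
      rd Z = rd Y * rd (zz (invW w)) := by
  obtain ⟨κ, hκ, h1, h2, h3⟩ := rd_X s
  refine ⟨(T (-1) ^ (6 * (2 * s)) : ℤ[T;T⁻¹]) • (Y * zz (invW (wX s)) * zz (invW w)), ?_, ?_⟩
  · have e1 := three_eq (m := 4) (s := s) 0 1 rfl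
    have e2 : zz (wX s) * zz w - zz w * zz (wX s) = (T (-1) ^ (6 * (2 * s)) * xx s * x) • Y := by
      unfold wX
      rw [e1, smul_mul_assoc, mul_smul_comm, ← smul_sub, add_mul, mul_add, one_mul, mul_one,
        add_sub_add_left_eq_sub, smul_mul_assoc, mul_smul_comm, ← smul_sub]
      have : ((0 : Fin (4 - 1)) : ℕ) = 0 := rfl
      rw [this, hY, smul_smul, smul_smul, mul_assoc]
    have e3 : zz w * zz (wX s) * zz (invW (wX s)) * zz (invW w) = 1 := by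
      rw [mul_assoc (zz w), zz_inv, mul_one, zz_inv]
    rw [zz_append, zz_append, zz_append]
    have e4 : zz (wX s) * zz w * zz (invW (wX s)) * zz (invW w) =
        zz w * zz (wX s) * zz (invW (wX s)) * zz (invW w) +
        (zz (wX s) * zz w - zz w * zz (wX s)) * zz (invW (wX s)) * zz (invW w) := by
      rw [sub_mul, sub_mul]
      abel
    rw [e4, e3, e2, smul_smul, smul_mul_assoc, smul_mul_assoc]
    congr 2
    ring
  · rw [rd_smul, h2, map_mul, map_mul, h3, mul_smul_comm, mul_one, smul_mul_assoc, smul_smul,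
      mul_inv_cancel₀ hκ, one_smul]

theorem wU_lead (s j : ℕ) (k : ℕ) : ∃ Z : TLZ 4, zz (wU s j (k + 1)) = 1 + xx s ^ (k + 1) • Z ∧
    rd Z = Wf (rd (zz (wG s j)) * P8 * rd (zz (invW (wG s j)))) k := by
  induction k with
  | zero =>
    obtain ⟨Z, h1, h2⟩ := lead_step s 1 (wG s j) _ (one_smul _ _).symm
    refine ⟨Z, ?_, ?_⟩
    · rw [pow_one]
      rw [mul_one] at h1
      exact h1
    · rw [h2, map_sub, map_mul, map_mul, rd_FF, sub_mul]
      have h3 := rd_zz_inv (wG s j)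
      show _ = rd (zz (wG s j)) * P8 * rd (zz (invW (wG s j))) - P8
      rw [mul_assoc ((-1 : ℂ) • P8), h3, mul_one, mul_smul_comm, smul_mul_assoc]
      module
  | succ k ih =>
    obtain ⟨Z, h1, h2⟩ := ih
    have hY : FF (-(T 1) ^ 2 - (T (-1)) ^ 2 : ℤ[T;T⁻¹]) (EZ 4 0) (EZ 4 (0 + 1)) * zz (wU s j (k + 1)) -
      zz (wU s j (k + 1)) * FF (-(T 1) ^ 2 - (T (-1)) ^ 2 : ℤ[T;T⁻¹]) (EZ 4 0) (EZ 4 (0 + 1)) =
      xx s ^ (k + 1) • (FF (-(T 1) ^ 2 - (T (-1)) ^ 2 : ℤ[T;T⁻¹]) (EZ 4 0) (EZ 4 (0 + 1)) * Z -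
        Z * FF (-(T 1) ^ 2 - (T (-1)) ^ 2 : ℤ[T;T⁻¹]) (EZ 4 0) (EZ 4 (0 + 1))) := by
      rw [h1, mul_add, add_mul, mul_one, one_mul, add_sub_add_left_eq_sub, mul_smul_comm,
        smul_mul_assoc, smul_sub]
    obtain ⟨Z', h3, h4⟩ := lead_step s _ _ _ hY
    refine ⟨Z', ?_, ?_⟩
    · rw [pow_succ' (xx s) (k + 1)]
      exact h3
    · have h5 : rd (zz (wU s j (k + 1))) = 1 := by
        rw [h1, map_add, map_one, rd_smul, map_pow, e8_xx, zero_pow (by omega), zero_smul, add_zero]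
      have h6 := rd_zz_inv (wU s j (k + 1))
      rw [h5, one_mul] at h6
      rw [h4, h6, mul_one, map_sub, map_mul, map_mul, rd_FF, h2]
      show _ = Wf _ k * P8 - P8 * Wf _ k
      rw [smul_mul_assoc, mul_smul_comm]
      module

/-! ### the trace of the leading term -/

/-- the braid `σ_0 σ_1 σ_2`, its closure is the unknot -/
def b0 : List (Letter 4) := [(true, 0), (true, 1), (true, 2)]

theorem zz_b0 : zz b0 = ((T 1 : ℤ[T;T⁻¹]) • (1 : TLZ 4) + (T (-1) : ℤ[T;T⁻¹]) • EZ 4 0) *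
    ((T 1 : ℤ[T;T⁻¹]) • (1 : TLZ 4) + (T (-1) : ℤ[T;T⁻¹]) • EZ 4 1) *
    ((T 1 : ℤ[T;T⁻¹]) • (1 : TLZ 4) + (T (-1) : ℤ[T;T⁻¹]) • EZ 4 2) := by
  unfold b0
  rw [zz_cons, zz_cons, zz_single, ← mul_assoc]
  show sZ 4 (true, 0) * sZ 4 (true, 1) * sZ 4 (true, 2) = _
  rw [sZ_true, sZ_true, sZ_true]

theorem rd_b0 : rd (zz b0) = ((z8 : ℂ) • (1 : T8) + (z8 : ℂ)⁻¹ • g0) *
    ((z8 : ℂ) • (1 : T8) + (z8 : ℂ)⁻¹ • g1) * ((z8 : ℂ) • (1 : T8) + (z8 : ℂ)⁻¹ • g2) := by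
  rw [zz_b0, map_mul, map_mul, map_add, map_add, map_add, rd_smul, rd_smul, rd_smul, rd_smul,
    map_one, e8_T1, e8_Tm1]
  rfl

theorem trace_ne (s : ℕ) (hs : 1 ≤ s) (j i : ℕ) (Z : TLZ 4)
    (hZ : rd Z = Wf (rd (zz (wG s j)) * P8 * rd (zz (invW (wG s j)))) (2 * i + 1)) :
    e8 (F4 (zz b0 * Z)) ≠ 0 := by
  obtain ⟨κ, p, q, r, u, hκ, hp, hr, hdet, hg⟩ := good_wG s hs j
  have hdet' : (p : ℂ) * u - q * r = 1 := by exact_mod_cast hdet
  have hg' := rd_inv_of (wG s j) hκ hdet' hg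
  have h1 : rd (zz (wG s j)) * P8 * rd (zz (invW (wG s j))) =
      Gm g1 g2 1 p (-(io * q)) (io * r) u * P8 * Gm g1 g2 1 u (-(io * -q)) (-(io * r)) p := by
    rw [hg, hg']
    have : io * -(r : ℂ) = -(io * r) := by ring
    unfold GM
    rw [this, smul_mul_assoc, smul_mul_assoc, mul_smul_comm, smul_smul, mul_inv_cancel₀ hκ, one_smul]
  have h2 := tlz.trace Ps Ps_comm Ps_g2 Ps_g012 z8_mul z8_four (p : ℂ) (-(io * q)) (io * r) u
    (-(io * -q))
  rw [mul_sub, map_sub] at h2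
  rw [← Ps_rd, map_mul, hZ, Wf_odd, h1, mul_sub, map_sub, rd_b0]
  intro h0
  have h3 : 2 * (z8 : ℂ)⁻¹ * (io * r) + 2 * z8 * ((p : ℂ) - 1) = 2 * z8 * ((r + p - 1 : ℤ) : ℂ) := by
    push_cast
    unfold io
    have := z8_mul
    linear_combination (2 * (z8 : ℂ) * r) * this
  have h4 : 2 * (z8 : ℂ) * ((r + p - 1 : ℤ) : ℂ) = 0 := by
    rw [← h3]
    rw [← h2]
    rw [sub_eq_zero] at h0 ⊢
    exact h0.symm
  refine mul_ne_zero (mul_ne_zero two_ne_zero z8_ne) ?_ h4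
  rw [Int.cast_ne_zero]
  omega

end Pool.Agent.Helper52_CU
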