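import Mathlib

/-!
# Elements near the identity of an algebra, modulo powers of an element of the base ring
-/

set_option autoImplicit false

namespace Pool.Agent.Helper52_CU

variable {L B : Type*} [CommRing L] [Ring B] [Algebra L B] {c d : L}

/-- `g` is invertible with the inverse `g'` and a unit times `1 + c y` -/
def Nr (c : L) (g g' : B) : Prop :=
  g * g' = 1 ∧ g' * g = 1 ∧ ∃ (u u' : L) (y : B), u * u' = 1 ∧ g = u • (1 + c • y)

/-- `g` is invertible with the inverse `g'` and `g = 1 + c y` -/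
def N1 (c : L) (g g' : B) : Prop :=
  g * g' = 1 ∧ g' * g = 1 ∧ ∃ y : B, g = 1 + c • y

theorem N1.nr {g g' : B} (h : N1 c g g') : Nr c g g' := by
  obtain ⟨h1, h2, y, h3⟩ := h
  exact ⟨h1, h2, 1, 1, y, mul_one 1, by rw [one_smul]; exact h3⟩

theorem N1.mul {g g' h h' : B} (hg : N1 c g g') (hh : N1 c h h') :
    N1 c (g * h) (h' * g') := by
  obtain ⟨h1, h2, y, h3⟩ := hg
  obtain ⟨h4, h5, z, h6⟩ := hh
  refine ⟨?_, ?_, y * h + z, ?_⟩
  · rw [mul_assoc, ← mul_assoc h, h4, one_mul, h1]
  · rw [mul_assoc, ← mul_assoc g', h2, one_mul, h5]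
  · rw [smul_add, ← smul_mul_assoc]
    have : g * h = h + (g - 1) * h := by rw [sub_mul, one_mul]; abel
    rw [this, h3, add_sub_cancel_left]
    nth_rewrite 1 [h6]
    abel

theorem Nr.mul {g g' h h' : B} (hg : Nr c g g') (hh : Nr c h h') :
    Nr c (g * h) (h' * g') := by
  obtain ⟨h1, h2, u, u', y, hu, h3⟩ := hg
  obtain ⟨h4, h5, v, v', z, hv, h6⟩ := hh
  refine ⟨?_, ?_, u * v, v' * u', y * (1 + c • z) + z, ?_, ?_⟩
  · rw [mul_assoc, ← mul_assoc h, h4, one_mul, h1]
  · rw [mul_assoc, ← mul_assoc g', h2, one_mul, h5]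
  · linear_combination (v * v') * hu + hv
  · rw [h3, h6]
    simp only [mul_add, add_mul, mul_one, one_mul, smul_mul_assoc, mul_smul_comm]
    module

theorem N1.symm {g g' : B} (h : N1 c g g') : N1 c g' g := by
  obtain ⟨h1, h2, y, h3⟩ := h
  refine ⟨h2, h1, -(y * g'), ?_⟩
  have h4 : (1 + c • y) * g' = 1 := by rw [← h3]; exact h1
  rw [add_mul, one_mul, smul_mul_assoc] at h4
  rw [smul_neg, ← h4]
  abel

theorem Nr.symm {g g' : B} (h : Nr c g g') : Nr c g' g := by
  obtain ⟨h1, h2, u, u', y, hu, h3⟩ := h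
  refine ⟨h2, h1, u', u, -(u • (y * g')), by rw [mul_comm]; exact hu, ?_⟩
  have h4 : u • ((1 + c • y) * g') = 1 := by rw [← smul_mul_assoc, ← h3]; exact h1
  rw [add_mul, one_mul, smul_mul_assoc, smul_add] at h4
  have h5 : g' = u' • (u • g') := by rw [smul_smul, mul_comm, hu, one_smul]
  nth_rewrite 1 [h5]
  congr 1
  rw [smul_neg, ← h4, smul_comm (c) u]
  abel

theorem N1.conj {g g' w w' : B} (h : N1 c g g') (hw : w * w' = 1) (hw' : w' * w = 1) :
    N1 c (w * g * w') (w * g' * w') := by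
  obtain ⟨h1, h2, y, h3⟩ := h
  have e : ∀ x z : B, (w * x * w') * (w * z * w') = w * (x * z) * w' := fun x z => by
    calc (w * x * w') * (w * z * w') = w * x * (w' * w) * z * w' := by noncomm_ring
      _ = w * (x * z) * w' := by rw [hw']; noncomm_ring
  refine ⟨?_, ?_, w * y * w', ?_⟩
  · rw [e, h1, mul_one, hw]
  · rw [e, h2, mul_one, hw]
  · rw [h3, mul_add, mul_one, add_mul, hw, mul_smul_comm, smul_mul_assoc]

theorem Nr.conj {g g' w w' : B} (h : Nr c g g') (hw : w * w' = 1) (hw' : w' * w = 1) :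
    Nr c (w * g * w') (w * g' * w') := by
  obtain ⟨h1, h2, u, u', y, hu, h3⟩ := h
  have e : ∀ x z : B, (w * x * w') * (w * z * w') = w * (x * z) * w' := fun x z => by
    calc (w * x * w') * (w * z * w') = w * x * (w' * w) * z * w' := by noncomm_ring
      _ = w * (x * z) * w' := by rw [hw']; noncomm_ring
  refine ⟨?_, ?_, u, u', w * y * w', hu, ?_⟩
  · rw [e, h1, mul_one, hw]
  · rw [e, h2, mul_one, hw]
  · rw [h3, mul_smul_comm, smul_mul_assoc, mul_add, mul_one, add_mul, hw, mul_smul_comm,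
      smul_mul_assoc]

/-- the commutator of elements near the identity is nearer -/
theorem Nr.comm {g g' h h' : B} (hg : Nr c g g') (hh : Nr d h h') :
    N1 (c * d) (g * h * g' * h') (h * g * h' * g') := by
  obtain ⟨h1, h2, u, u', y, hu, h3⟩ := hg
  obtain ⟨h4, h5, v, v', z, hv, h6⟩ := hh
  refine ⟨?_, ?_, (u * v) • ((y * z - z * y) * g' * h'), ?_⟩
  · calc (g * h * g' * h') * (h * g * h' * g') = g * h * g' * (h' * h) * g * h' * g' := by
          noncomm_ring
      _ = g * h * (g' * g) * h' * g' := by rw [h5]; noncomm_ring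
      _ = g * (h * h') * g' := by rw [h2]; noncomm_ring
      _ = 1 := by rw [h4, mul_one, h1]
  · calc (h * g * h' * g') * (g * h * g' * h') = h * g * h' * (g' * g) * h * g' * h' := by
          noncomm_ring
      _ = h * g * (h' * h) * g' * h' := by rw [h2]; noncomm_ring
      _ = h * (g * g') * h' := by rw [h5]; noncomm_ring
      _ = 1 := by rw [h1, mul_one, h4]
  · have e1 : g * h - h * g = (c * d * (u * v)) • (y * z - z * y) := by
      rw [h3, h6, ]
      simp only [mul_add, add_mul, mul_one, one_mul, smul_mul_assoc, mul_smul_comm]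
      module
    have e5 : g * h * g' * h' = 1 + (g * h - h * g) * g' * h' := by
      have : h * g * g' * h' = 1 := by rw [mul_assoc h, h1, mul_one, h4]
      rw [sub_mul, sub_mul, this]
      abel
    rw [e5, e1, smul_mul_assoc, smul_mul_assoc, mul_smul]

end Pool.Agent.Helper52_CU
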